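import Pool.Agent.R489.HB.Stm

set_option autoImplicit false

namespace Pool.Agent.R534.HB

open Pool.Agent.R489.HB

section

variable {V : Type} {G : SimpleGraph V}

/-- no neighbours -/
def Iso (G : SimpleGraph V) (u : V) : Prop := ∀ w, ¬ G.Adj u w

theorem walk_iso {u x : V} (hu : Iso G u) (k : G.Walk x u) : x = u := by
  have h := k.reverse
  cases h with
  | nil => rfl
  | cons h _ => exact absurd h (hu _)

theorem walk_iso' {u x : V} (hu : Iso G u) (k : G.Walk u x) : x = u := walk_iso hu k.reverse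

theorem end_iso {u : V} (hu : Iso G u) {p : Pt G} {α : ℝ} (h : p.End u α) :
    p.u = u ∧ p.w = u := by
  rcases p.h with h1 | h1
  · rcases h with h2 | h2
    · exact ⟨h2.1.symm, h1.1 ▸ h2.1.symm⟩
    · exact absurd h1.1 h2.1
  · rcases h with h2 | h2
    · exact absurd (h2.1 ▸ h1.1) (hu _)
    · exact absurd (h2.2.1 ▸ h1.1.symm) (hu _)

theorem end_of {u : V} {p : Pt G} (h1 : p.u = u) (h2 : p.w = u) {x : V} {α : ℝ}
    (h : p.End x α) : x = u := by
  rcases h with h | h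
  · exact h.1.trans h1
  · exact h.2.1.trans h2

theorem dle_iso {u : V} (hu : Iso G u) {p q : Pt G} {r : ℝ} (h1 : q.u = u) (h2 : q.w = u)
    (h : dle p q r) : p.u = u ∧ p.w = u := by
  rcases h with h | h | ⟨x, y, α, β, k, hx, hy, -⟩
  · exact ⟨h.1.trans h1, h.2.1.trans h2⟩
  · exact absurd (h.2.1.trans h2 ▸ h.1) (hu _)
  · have hy' := end_of h1 h2 hy
    subst hy'
    have hx' := walk_iso hu k
    subst hx'
    exact end_iso hu hx

theorem dle_iso' {u : V} (hu : Iso G u) {p q : Pt G} {r : ℝ} (h1 : p.u = u) (h2 : p.w = u)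
    (h : dle p q r) : q.u = u ∧ q.w = u := by
  rcases h with h | h | ⟨x, y, α, β, k, hx, hy, -⟩
  · exact ⟨h.1.symm.trans h1, h.2.1.symm.trans h2⟩
  · exact absurd (h1 ▸ h.1) (hu _)
  · have hx' := end_of h1 h2 hx
    subst hx'
    have hy' := walk_iso' hu k
    subst hy'
    exact end_iso hu hy

end

open Classical in
theorem GEO : S_TRI → S_CNF → S_GEO := by
  intro hTRI hCNF V G A n t hS
  -- the centres
  let C : V → Fin 3 → Pt G := fun u i =>
    if h : A u i then ⟨u, n u i, t u i, Or.inr ⟨hS.adj u i h, (hS.pos u i).le,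
      by linarith [hS.half u i]⟩⟩ else ⟨u, u, 0, Or.inl ⟨rfl, rfl⟩⟩
  have Cu : ∀ u i, A u i → (C u i).u = u := by
    intro u i h; simp only [C, dif_pos h]
  have Cw : ∀ u i, A u i → (C u i).w = n u i := by
    intro u i h; simp only [C, dif_pos h]
  have Cs : ∀ u i, A u i → (C u i).s = t u i := by
    intro u i h; simp only [C, dif_pos h]
  let D : V → Pt G := fun u => ⟨u, u, 0, Or.inl ⟨rfl, rfl⟩⟩
  let R : Set (Pt G) → V × Fin 3 → Prop := fun b x => A x.1 x.2 ∧ b = hball (C x.1 x.2)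
  let f : Set (Pt G) → Fin 3 := fun b => if h : ∃ x, R b x then h.choose.2 else 0
  have hf : ∀ b, (∃ x, R b x) → ∃ u i, A u i ∧ b = hball (C u i) ∧ f b = i := by
    intro b h
    refine ⟨h.choose.1, h.choose.2, h.choose_spec.1, h.choose_spec.2, ?_⟩
    simp only [f, dif_pos h]
  let B : Set (Set (Pt G)) := {b | (∃ x, R b x) ∨ ∃ u, Iso G u ∧ b = hball (D u)}
  -- a ball meeting the ball of an isolated vertex
  have key : ∀ u, Iso G u → ∀ b' ∈ B, (hball (D u) ∩ b').Nonempty → b' = hball (D u) := by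
    rintro u hu b' hb' ⟨q, hq, hq'⟩
    obtain ⟨h1, h2⟩ := dle_iso' hu (p := D u) rfl rfl hq
    rcases hb' with ⟨⟨u', i⟩, hA, rfl⟩ | ⟨u', hu', rfl⟩
    · obtain ⟨h3, h4⟩ := dle_iso hu h1 h2 hq'
      simp only at hA h3
      rw [Cu _ _ hA] at h3
      subst h3
      exact absurd (hS.adj _ _ hA) (hu _)
    · obtain ⟨h3, h4⟩ := dle_iso hu h1 h2 hq'
      have : u' = u := h3
      rw [this]
  refine ⟨B, f, ?_, ?_, ?_⟩
  · rintro b (⟨x, hx⟩ | ⟨u, -, hu⟩)
    · exact ⟨_, hx.2⟩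
    · exact ⟨_, hu⟩
  · intro q
    rcases q.h with ⟨huw, hs⟩ | ⟨hadj, hs0, hs1⟩
    · by_cases hu : Iso G q.u
      · refine ⟨hball (D q.u), Or.inr ⟨q.u, hu, rfl⟩, ?_⟩
        refine Or.inl ⟨rfl, huw, ?_⟩
        show |(0 : ℝ) - q.s| ≤ 1 / 2
        rw [hs]; norm_num
      · unfold Iso at hu
        push Not at hu
        obtain ⟨w, hw⟩ := hu
        obtain ⟨i, hi⟩ := hS.vert _ _ hw
        refine ⟨hball (C q.u i), Or.inl ⟨(q.u, i), hi, rfl⟩, ?_⟩
        refine Or.inr (Or.inr ⟨q.u, q.u, t q.u i, 0, SimpleGraph.Walk.nil,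
          Or.inl ⟨(Cu _ _ hi).symm, (Cs _ _ hi).symm⟩, Or.inl ⟨rfl, hs.symm⟩, ?_⟩)
        simp only [SimpleGraph.Walk.length_nil, Nat.cast_zero]
        linarith [hS.half q.u i]
    · rcases hS.cover _ _ hadj with ⟨i, j, hi, hn, hj, ht⟩ | ⟨i, j, hi, hn, hj, ht⟩
      · by_cases hs : q.s ≤ t q.u i + 1 / 2
        · refine ⟨hball (C q.u i), Or.inl ⟨(q.u, i), hi, rfl⟩, ?_⟩
          refine Or.inl ⟨Cu _ _ hi, (Cw _ _ hi).trans hn, ?_⟩
          rw [Cs _ _ hi, abs_le]
          constructor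
          · linarith
          · linarith [hS.half q.u i]
        · refine ⟨hball (C q.w j), Or.inl ⟨(q.w, j), hj, rfl⟩, ?_⟩
          refine Or.inr (Or.inr ⟨q.w, q.w, t q.w j, 1 - q.s, SimpleGraph.Walk.nil,
            Or.inl ⟨(Cu _ _ hj).symm, (Cs _ _ hj).symm⟩, Or.inr ⟨hadj.ne, rfl, rfl⟩, ?_⟩)
          simp only [SimpleGraph.Walk.length_nil, Nat.cast_zero]
          linarith
      · by_cases hs : 1 - q.s ≤ t q.w i + 1 / 2
        · refine ⟨hball (C q.w i), Or.inl ⟨(q.w, i), hi, rfl⟩, ?_⟩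
          refine Or.inr (Or.inl ⟨?_, Cu _ _ hi, (Cw _ _ hi).trans hn, ?_⟩)
          · rw [Cu _ _ hi, Cw _ _ hi, hn]; exact hadj.symm
          · rw [Cs _ _ hi, abs_le]
            constructor
            · linarith
            · linarith [hS.half q.w i]
        · refine ⟨hball (C q.u j), Or.inl ⟨(q.u, j), hj, rfl⟩, ?_⟩
          refine Or.inr (Or.inr ⟨q.u, q.u, t q.u j, q.s, SimpleGraph.Walk.nil,
            Or.inl ⟨(Cu _ _ hj).symm, (Cs _ _ hj).symm⟩, Or.inl ⟨rfl, rfl⟩, ?_⟩)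
          simp only [SimpleGraph.Walk.length_nil, Nat.cast_zero]
          linarith
  · intro b hb b' hb' hne hint hfb
    rcases hb with h | ⟨u, hu, rfl⟩
    · rcases hb' with h' | ⟨u, hu, rfl⟩
      · obtain ⟨u, i, hA, rfl, hi⟩ := hf b h
        obtain ⟨u', i', hA', rfl, hi'⟩ := hf b' h'
        rw [hi, hi'] at hfb
        subst hfb
        obtain ⟨q, hq, hq'⟩ := hint
        have h1 : dle (C u i) (C u' i) (1 / 2 + 1 / 2) := hTRI V G _ _ _ _ _ hq hq'
        have h2 : dle (C u i) (C u' i) 1 := by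
          have e : (1 / 2 + 1 / 2 : ℝ) = 1 := by norm_num
          rwa [e] at h1
        have h3 := hCNF V G A n t hS u u' i _ _ hA hA' (Cu _ _ hA) (Cw _ _ hA) (Cs _ _ hA)
          (Cu _ _ hA') (Cw _ _ hA') (Cs _ _ hA') h2
        subst h3
        exact hne rfl
      · exact hne (key u hu b (Or.inl h) (by rwa [Set.inter_comm]))
    · exact hne (key u hu b' hb' hint).symm

end Pool.Agent.R534.HB
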